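import Pool.Agent.H30.FA.TA
import Pool.Agent.H30.FA.TC

/-!
# Row PRT: perturbation of the eigenvectors
-/

set_option autoImplicit false

open Finset Pool.Agent.H30.FA

namespace Pool.Agent.H73.FAS

lemma two_le (k : ℕ) (i : Fin (k + 1)) : (2 : Fin (k + 1 + 2)) ≤ i.succ.succ := by
  rw [Fin.le_def]
  have h : ((2 : Fin (k + 1 + 2)) : ℕ) = 2 := Nat.mod_eq_of_lt (show 2 < k + 1 + 2 by omega)
  rw [h]
  simp

lemma split3 (k : ℕ) (f : Fin (k + 1 + 2) → ℝ) :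
    ∑ a, f a = f 0 + f 1 + ∑ i : Fin (k + 1), f i.succ.succ := by
  rw [Fin.sum_univ_succ, Fin.sum_univ_succ, ← add_assoc]
  rfl

lemma tail_le (k : ℕ) (r w : Fin (k + 1 + 2) → ℝ) (hr : Antitone r) (hw : ∀ a, 0 ≤ w a) :
    ∑ i : Fin (k + 1), r i.succ.succ * w i.succ.succ ≤
      r 2 * ∑ i : Fin (k + 1), w i.succ.succ := by
  rw [mul_sum]
  refine sum_le_sum fun i _ => ?_
  exact mul_le_mul_of_nonneg_right (hr (two_le k i)) (hw _)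

lemma var2 (k : ℕ) (r w : Fin (k + 1 + 2) → ℝ) (hr : Antitone r) (hw : ∀ a, 0 ≤ w a)
    (hw1 : ∀ a, w a ≤ 1) (hs : ∑ a, w a = 2) :
    ∑ a, r a * w a ≤ r 0 + r 1 - (r 1 - r 2) * (2 - (w 0 + w 1)) := by
  rw [split3] at hs
  rw [split3]
  have h1 := tail_le k r w hr hw
  have h2 : ∑ i : Fin (k + 1), w i.succ.succ = 2 - (w 0 + w 1) := by linarith
  rw [h2] at h1
  have h3 : r 1 ≤ r 0 := hr (Fin.zero_le 1)
  have h4 := mul_le_mul_of_nonneg_right h3 (sub_nonneg.2 (hw1 0))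
  nlinarith

lemma var1 (k : ℕ) (r w : Fin (k + 1 + 2) → ℝ) (hr : Antitone r) (hw : ∀ a, 0 ≤ w a)
    (hs : ∑ a, w a = 1) : ∑ a, r a * w a ≤ r 0 * w 0 + r 1 * (1 - w 0) := by
  rw [split3] at hs
  rw [split3]
  have h1 := tail_le k r w hr hw
  have h12 : (1 : Fin (k + 1 + 2)) ≤ 2 := by
    rw [Fin.le_def]
    have h : ((2 : Fin (k + 1 + 2)) : ℕ) = 2 := Nat.mod_eq_of_lt (show 2 < k + 1 + 2 by omega)
    rw [h]
    simp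
  have h2 := hr h12
  have h3 : 0 ≤ ∑ i : Fin (k + 1), w i.succ.succ := sum_nonneg fun i _ => hw _
  have h4 := mul_le_mul_of_nonneg_right h2 h3
  have h5 : 1 - w 0 = w 1 + ∑ i : Fin (k + 1), w i.succ.succ := by linarith
  rw [h5]
  linarith

theorem pf_PRT (hBAS : T_BAS) : T_PRT := by
  intro κ J _ k C C' δ hx hr hr' hδ
  obtain ⟨b1, -, -, -, -, b6, b7, -, -, b10, -⟩ := hBAS κ J _ _ C
  obtain ⟨c1, -, -, -, -, c6, c7, -, -, c10, -⟩ := hBAS κ J _ _ C'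
  have hδ0 : 0 ≤ δ := (sum_nonneg fun j _ => abs_nonneg _).trans hδ
  have hn : ∀ a, ‖C.e a‖ = 1 := fun a => C.e.orthonormal.1 a
  have hn' : ∀ a, ‖C'.e a‖ = 1 := fun a => C'.e.orthonormal.1 a
  -- comparison
  have hcomp : ∀ g : J → ℝ, (∀ j, 0 ≤ g j) → (∀ j, g j ≤ 1) →
      |∑ j, C.t j * g j - ∑ j, C'.t j * g j| ≤ δ := by
    intro g h0 h1
    rw [← sum_sub_distrib]
    refine (abs_sum_le_sum_abs _ _).trans (le_trans (sum_le_sum fun j _ => ?_) hδ)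
    rw [← sub_mul, abs_mul, abs_of_nonneg (h0 j)]
    exact mul_le_of_le_one_right (abs_nonneg _) (h1 j)
  have hcs : ∀ (y : V (k + 1 + 2)) (j : J), ‖y‖ = 1 → ‖inner ℂ y (C.x j)‖ ^ 2 ≤ 1 := by
    intro y j hy
    have := norm_inner_le_norm (𝕜 := ℂ) y (C.x j)
    rw [hy, C.norm_x j, one_mul] at this
    exact pow_le_one₀ (norm_nonneg _) this
  have hD1 : ∀ y : V (k + 1 + 2), ‖y‖ = 1 → |∑ j, C.t j * ‖inner ℂ y (C.x j)‖ ^ 2 -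
      ∑ j, C'.t j * ‖inner ℂ y (C.x j)‖ ^ 2| ≤ δ := fun y hy =>
    hcomp _ (fun j => sq_nonneg _) (fun j => hcs y j hy)
  have h01 : (0 : Fin (k + 1 + 2)) ≠ 1 := by
    intro h
    have := congrArg Fin.val h
    simp at this
  -- Bessel
  have hbes : ∀ (e : OrthonormalBasis (Fin (k + 1 + 2)) ℂ (V (k + 1 + 2)))
      (_ : ∀ z : V (k + 1 + 2), ‖z‖ ^ 2 = ∑ a, ‖inner ℂ z (e a)‖ ^ 2) (z : V (k + 1 + 2)),
      ‖z‖ = 1 → ‖inner ℂ (e 0) z‖ ^ 2 + ‖inner ℂ (e 1) z‖ ^ 2 ≤ 1 := by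
    intro e he z hz
    have h := he z
    rw [split3, hz] at h
    have h3 : 0 ≤ ∑ i : Fin (k + 1), ‖inner ℂ z (e i.succ.succ)‖ ^ 2 :=
      sum_nonneg fun i _ => sq_nonneg _
    rw [norm_inner_symm (e 0) z, norm_inner_symm (e 1) z]
    linarith
  have hD2 : ∀ (e : OrthonormalBasis (Fin (k + 1 + 2)) ℂ (V (k + 1 + 2)))
      (_ : ∀ z : V (k + 1 + 2), ‖z‖ ^ 2 = ∑ a, ‖inner ℂ z (e a)‖ ^ 2),
      |(∑ j, C.t j * ‖inner ℂ (e 0) (C.x j)‖ ^ 2 + ∑ j, C.t j * ‖inner ℂ (e 1) (C.x j)‖ ^ 2) -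
      (∑ j, C'.t j * ‖inner ℂ (e 0) (C.x j)‖ ^ 2 +
        ∑ j, C'.t j * ‖inner ℂ (e 1) (C.x j)‖ ^ 2)| ≤ δ := by
    intro e he
    have := hcomp (fun j => ‖inner ℂ (e 0) (C.x j)‖ ^ 2 + ‖inner ℂ (e 1) (C.x j)‖ ^ 2)
      (fun j => by positivity) (fun j => hbes e he _ (C.norm_x j))
    simp only [mul_add, sum_add_distrib] at this
    exact this
  -- the values on the bases
  rw [← hx] at c1 c6
  have u1 := hD1 (C.e 0) (hn 0)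
  have u2 := hD1 (C'.e 0) (hn' 0)
  have u3 := hD2 C.e b10
  have u4 := hD2 C'.e c10
  rw [← b1 0, c6 (C.e 0)] at u1
  rw [← c1 0, b6 (C'.e 0)] at u2
  rw [← b1 0, ← b1 1, c6 (C.e 0), c6 (C.e 1), ← sum_add_distrib] at u3
  rw [← c1 0, ← c1 1, b6 (C'.e 0), b6 (C'.e 1), ← sum_add_distrib] at u4
  have v1 := var1 k C'.r (fun a => ‖inner ℂ (C.e 0) (C'.e a)‖ ^ 2) hr' (fun a => sq_nonneg _)
    (by rw [← c10, hn, one_pow])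
  have v2 := var1 k C.r (fun a => ‖inner ℂ (C'.e 0) (C.e a)‖ ^ 2) hr (fun a => sq_nonneg _)
    (by rw [← b10, hn', one_pow])
  have v3 := var2 k C'.r (fun a => ‖inner ℂ (C.e 0) (C'.e a)‖ ^ 2 +
    ‖inner ℂ (C.e 1) (C'.e a)‖ ^ 2) hr' (fun a => by positivity)
    (fun a => hbes C.e b10 _ (hn' a))
    (by rw [sum_add_distrib, ← c10, ← c10, hn, hn]; norm_num)
  have v4 := var2 k C.r (fun a => ‖inner ℂ (C'.e 0) (C.e a)‖ ^ 2 +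
    ‖inner ℂ (C'.e 1) (C.e a)‖ ^ 2) hr (fun a => by positivity)
    (fun a => hbes C'.e c10 _ (hn a))
    (by rw [sum_add_distrib, ← b10, ← b10, hn', hn']; norm_num)
  simp only [mul_add] at v3 v4
  rw [abs_le] at u1 u2 u3 u4
  have h12 : (1 : Fin (k + 1 + 2)) ≤ 2 := by
    rw [Fin.le_def]
    have h : ((2 : Fin (k + 1 + 2)) : ℕ) = 2 := Nat.mod_eq_of_lt (show 2 < k + 1 + 2 by omega)
    rw [h]
    simp
  have hr01 : C.r 1 ≤ C.r 0 := hr (Fin.zero_le 1)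
  have hr01' : C'.r 1 ≤ C'.r 0 := hr' (Fin.zero_le 1)
  have hr12 : C.r 2 ≤ C.r 1 := hr h12
  have hr12' : C'.r 2 ≤ C'.r 1 := hr' h12
  have w1 : ‖inner ℂ (C.e 0) (C'.e 0)‖ ^ 2 ≤ 1 := by
    have := hbes C.e b10 _ (hn' 0)
    linarith [sq_nonneg ‖inner ℂ (C.e 1) (C'.e 0)‖]
  have w2 : ‖inner ℂ (C.e 0) (C'.e 0)‖ ^ 2 = ‖inner ℂ (C'.e 0) (C.e 0)‖ ^ 2 := by
    rw [norm_inner_symm]
  have w3 := hbes C.e b10 _ (hn' 0)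
  have w4 := hbes C.e b10 _ (hn' 1)
  have w5 := hbes C'.e c10 _ (hn 0)
  have w6 := hbes C'.e c10 _ (hn 1)
  have p1 := mul_le_mul_of_nonneg_right hr01' (sub_nonneg.2 w1)
  have p2 := mul_le_mul_of_nonneg_right hr01 (sub_nonneg.2 (w2 ▸ w1))
  have p3 := mul_nonneg (sub_nonneg.2 hr12') (show 0 ≤ 2 - (‖inner ℂ (C.e 0) (C'.e 0)‖ ^ 2 +
    ‖inner ℂ (C.e 1) (C'.e 0)‖ ^ 2 + (‖inner ℂ (C.e 0) (C'.e 1)‖ ^ 2 +
    ‖inner ℂ (C.e 1) (C'.e 1)‖ ^ 2)) by linarith)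
  have p4 := mul_nonneg (sub_nonneg.2 hr12) (show 0 ≤ 2 - (‖inner ℂ (C'.e 0) (C.e 0)‖ ^ 2 +
    ‖inner ℂ (C'.e 1) (C.e 0)‖ ^ 2 + (‖inner ℂ (C'.e 0) (C.e 1)‖ ^ 2 +
    ‖inner ℂ (C'.e 1) (C.e 1)‖ ^ 2)) by linarith)
  refine ⟨?_, ?_, ?_⟩
  · rw [abs_le]
    constructor <;> nlinarith
  · rw [w2]
    nlinarith
  · rw [norm_inner_symm (C.e 0) (C'.e 0), norm_inner_symm (C.e 0) (C'.e 1),
      norm_inner_symm (C.e 1) (C'.e 0), norm_inner_symm (C.e 1) (C'.e 1)]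
    have e1 : ‖inner ℂ (C'.e 0) (C.e 0)‖ ^ 2 + ‖inner ℂ (C'.e 1) (C.e 0)‖ ^ 2 +
      ‖inner ℂ (C'.e 0) (C.e 1)‖ ^ 2 + ‖inner ℂ (C'.e 1) (C.e 1)‖ ^ 2 =
      ‖inner ℂ (C'.e 0) (C.e 0)‖ ^ 2 + ‖inner ℂ (C'.e 1) (C.e 0)‖ ^ 2 +
      (‖inner ℂ (C'.e 0) (C.e 1)‖ ^ 2 + ‖inner ℂ (C'.e 1) (C.e 1)‖ ^ 2) := by ring
    rw [e1]
    linarith

end Pool.Agent.H73.FAS
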