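import Pool.Agent.H30.FA.TA
import Pool.Agent.H58.FM.TC2

/-!
# Row TRP: the first three eigenvalues are not nearly equal
-/

set_option autoImplicit false

open Finset Pool.Agent.H30.FA Pool.Agent.H58.FM

namespace Pool.Agent.H73.FAS

lemma split3' (k : ℕ) (f : Fin (k + 1 + 2) → ℝ) :
    ∑ a, f a = f 0 + f 1 + (f 2 + ∑ i : Fin k, f i.succ.succ.succ) := by
  rw [Fin.sum_univ_succ, Fin.sum_univ_succ, Fin.sum_univ_succ, ← add_assoc]
  rfl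

lemma le3 (k : ℕ) (f : Fin (k + 1 + 2) → ℝ) (hf : ∀ a, 0 ≤ f a) :
    f 0 + f 1 + f 2 ≤ ∑ a, f a := by
  rw [split3']
  have : 0 ≤ ∑ i : Fin k, f i.succ.succ.succ := sum_nonneg fun i _ => hf _
  linarith

lemma numer {κ η s r0 r1 r2 q4 Q : ℝ} (hκ : 1 / 4 < κ) (hκ1 : κ ≤ 1) (hη0 : 0 < η)
    (hη1 : η ≤ (κ - 1 / 4) / 10) (hη2 : η ≤ 1 / 100) (hκs : κ ≤ s) (hsr : s ≤ r0)
    (hr : r0 + r1 + r2 ≤ 1) (hr1 : 0 ≤ r1) (hr2 : 0 ≤ r2) (hsq : r0 ^ 2 + r1 ^ 2 + r2 ^ 2 ≤ s)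
    (h01 : r0 - r1 ≤ η) (h12 : r1 - r2 ≤ η)
    (hq4 : q4 ≤ r0 ^ 2 * s) (hQ0 : 0 ≤ Q) (hQ : Q ≤ (1 + κ) * s - κ)
    (hqu : 2 * s ^ 4 ≤ (s ^ 2 + q4) * Q) : False := by
  have hs0 : 0 < s := by linarith
  have h3 : r0 ≤ 1 / 3 + η := by linarith
  have hr0 : 1 / 4 < r0 := by linarith
  have a1 : (r0 - η) ^ 2 ≤ r1 ^ 2 := pow_le_pow_left₀ (by linarith) (by linarith) 2
  have a2 : (r0 - 2 * η) ^ 2 ≤ r2 ^ 2 := pow_le_pow_left₀ (by linarith) (by linarith) 2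
  have a3 : r0 ^ 2 ≤ s / 3 + 2 * η := by
    have : η * r0 ≤ η * 1 := mul_le_mul_of_nonneg_left (by linarith) hη0.le
    nlinarith
  have a4 : q4 ≤ (s / 3 + 2 * η) * s := hq4.trans (mul_le_mul_of_nonneg_right a3 hs0.le)
  obtain ⟨B, hB⟩ : ∃ B, B = (1 + κ) * s - κ := ⟨_, rfl⟩
  rw [← hB] at hQ
  have hBs : B ≤ s := by
    have : κ * s ≤ κ * 1 := mul_le_mul_of_nonneg_left (by linarith) (by linarith)
    rw [hB]; linarith
  have a5 : 2 * s ^ 4 ≤ (s ^ 2 + (s / 3 + 2 * η) * s) * B := by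
    refine hqu.trans ?_
    have hp : 0 ≤ s ^ 2 + (s / 3 + 2 * η) * s := by positivity
    exact (mul_le_mul_of_nonneg_right (by linarith) hQ0).trans (mul_le_mul_of_nonneg_left hQ hp)
  have a6 : 2 * s ^ 4 ≤ (4 / 3 * B + 2 * η) * s ^ 2 := by
    have : 2 * η * s * B ≤ 2 * η * s * s := mul_le_mul_of_nonneg_left hBs (by positivity)
    nlinarith
  have a7 : 2 * s ^ 2 ≤ 4 / 3 * B + 2 * η := by
    have hs2 : 0 < s ^ 2 := by positivity
    have : 2 * s ^ 2 * s ^ 2 ≤ (4 / 3 * B + 2 * η) * s ^ 2 := by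
      calc 2 * s ^ 2 * s ^ 2 = 2 * s ^ 4 := by ring
        _ ≤ _ := a6
    exact le_of_mul_le_mul_right this hs2
  have a8 : 0 ≤ (1 / 3 + η - s) * (κ + 1 - 3 / 2 * (s + (1 / 3 + η))) :=
    mul_nonneg (by linarith) (by linarith)
  have a9 : κ * η ≤ 1 * η := mul_le_mul_of_nonneg_right hκ1 hη0.le
  have a10 : 0 ≤ η ^ 2 := sq_nonneg _
  rw [hB] at a7
  nlinarith

theorem pf_TRP (hBAS : T_BAS) (hQU2 : T_QU2) : T_TRP := by
  intro κ hκ
  refine ⟨min ((κ - 1 / 4) / 10) (1 / 100), lt_min (by linarith) (by norm_num), ?_⟩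
  intro J _ k C hr h01
  by_contra h12
  push Not at h12
  obtain ⟨b1, b2, b3, b4, b5, b6, -, -, -, -, b11⟩ := hBAS κ J _ _ C
  have hqu := hQU2 κ J _ _ C
  obtain ⟨η, hη⟩ : ∃ η, η = min ((κ - 1 / 4) / 10) (1 / 100) := ⟨_, rfl⟩
  rw [← hη] at h01 h12
  have hη1 : η ≤ (κ - 1 / 4) / 10 := by rw [hη]; exact min_le_left _ _
  have hη2 : η ≤ 1 / 100 := by rw [hη]; exact min_le_right _ _
  have hη0 : 0 < η := by rw [hη]; exact lt_min (by linarith) (by norm_num)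
  have hr0 : ∀ a, C.r a ≤ C.r 0 := fun a => hr (Fin.zero_le a)
  -- the sum of squares
  have hs : ∑ i, ∑ j, C.t i * C.t j * ‖inner ℂ (C.x i) (C.x j)‖ ^ 2 = ∑ a, C.r a ^ 2 := by
    calc ∑ i, ∑ j, C.t i * C.t j * ‖inner ℂ (C.x i) (C.x j)‖ ^ 2
        = ∑ i, C.t i * ∑ a, C.r a * ‖inner ℂ (C.x i) (C.e a)‖ ^ 2 := by
          refine sum_congr rfl fun i _ => ?_
          rw [← b6 (C.x i), mul_sum]
          refine sum_congr rfl fun j _ => ?_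
          ring
      _ = ∑ a, C.r a * ∑ i, C.t i * ‖inner ℂ (C.e a) (C.x i)‖ ^ 2 := by
          simp only [mul_sum]
          rw [sum_comm]
          refine sum_congr rfl fun a _ => sum_congr rfl fun i _ => ?_
          rw [norm_inner_symm (C.x i) (C.e a)]
          ring
      _ = ∑ a, C.r a ^ 2 := by
          refine sum_congr rfl fun a _ => ?_
          rw [← b1 a]
          ring
  have ht1 : ∑ i, ∑ j, C.t i * C.t j = 1 := by
    rw [← sum_mul_sum, C.t_sum, one_mul]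
  have hQ : qq C.t C.x 2 1 ≤ (1 + κ) * (∑ a, C.r a ^ 2) - κ := by
    have e1 : (1 + κ) * (∑ a, C.r a ^ 2) - κ = ∑ i, ∑ j, C.t i * C.t j *
        ((1 + κ) * ‖inner ℂ (C.x i) (C.x j)‖ ^ 2 - κ) := by
      have e2 : κ = κ * ∑ i, ∑ j, C.t i * C.t j := by rw [ht1, mul_one]
      conv_lhs => rw [← hs]
      conv_lhs => rhs; rw [e2]
      rw [mul_sum, mul_sum, ← sum_sub_distrib]
      refine sum_congr rfl fun i _ => ?_
      rw [mul_sum, mul_sum, ← sum_sub_distrib]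
      refine sum_congr rfl fun j _ => ?_
      ring
    rw [e1]
    unfold qq
    refine sum_le_sum fun i _ => sum_le_sum fun j _ => ?_
    by_cases hi : C.t i = 0
    · rw [hi]; simp
    by_cases hj : C.t j = 0
    · rw [hj]; simp
    apply mul_le_mul_of_nonneg_left _ (mul_nonneg (C.t_nonneg i) (C.t_nonneg j))
    have h1 := C.adj i j hi hj
    have h2 : ‖inner ℂ (C.x i) (C.x j)‖ ^ 2 ≤ 1 := by
      have := norm_inner_le_norm (𝕜 := ℂ) (C.x i) (C.x j)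
      rw [C.norm_x i, C.norm_x j, one_mul] at this
      exact pow_le_one₀ (norm_nonneg _) this
    have e3 : (1 : V (k + 1 + 2) ≃ₗᵢ[ℂ] V (k + 1 + 2)) (C.x j) = C.x j := rfl
    rw [e3, pow_mul]
    obtain ⟨u, hu⟩ : ∃ u, u = ‖inner ℂ (C.x i) (C.x j)‖ ^ 2 := ⟨_, rfl⟩
    rw [← hu] at h1 h2 ⊢
    nlinarith [mul_nonneg (sub_nonneg.2 h1) (sub_nonneg.2 h2)]
  have hQ0 : 0 ≤ qq C.t C.x 2 1 := by
    unfold qq
    refine sum_nonneg fun i _ => sum_nonneg fun j _ => ?_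
    exact mul_nonneg (mul_nonneg (C.t_nonneg i) (C.t_nonneg j)) (by positivity)
  have hsr : ∑ a, C.r a ^ 2 ≤ C.r 0 := by
    calc ∑ a, C.r a ^ 2 ≤ ∑ a, C.r 0 * C.r a := by
          refine sum_le_sum fun a _ => ?_
          rw [sq]
          exact mul_le_mul_of_nonneg_right (hr0 a) (b2 a)
      _ = C.r 0 := by rw [← mul_sum, b4, mul_one]
  have hq4 : ∑ a, C.r a ^ 4 ≤ C.r 0 ^ 2 * ∑ a, C.r a ^ 2 := by
    rw [mul_sum]
    refine sum_le_sum fun a _ => ?_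
    have h1 : C.r a ^ 2 ≤ C.r 0 ^ 2 := pow_le_pow_left₀ (b2 a) (hr0 a) 2
    calc C.r a ^ 4 = C.r a ^ 2 * C.r a ^ 2 := by ring
      _ ≤ _ := mul_le_mul_of_nonneg_right h1 (sq_nonneg _)
  have h3 := le3 k C.r b2
  rw [b4] at h3
  exact numer hκ b5 hη0 hη1 hη2 b11 hsr h3 (b2 1) (b2 2) (le3 k (fun a => C.r a ^ 2)
    (fun a => sq_nonneg _)) h01 h12.le hq4 hQ0 hQ hqu

end Pool.Agent.H73.FAS
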